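import Pool.Agent.Helper52.SM.Goals

/-!
# Packet CLG of project SM: restriction and normalization of lists with labels
-/

set_option autoImplicit false

namespace Pool.Agent.Helper35.SM

open Pool.Agent.Helper52.SM Pool.Agent.Helper78
open scoped Classical

theorem ov_mem {s : List (ℕ × Bool)} (hs : (s.map Prod.fst).Nodup) {v : ℕ} {β : Bool}
    (h : (v, β) ∈ s) (b : ℕ → Bool) : ov s b v = β := by
  unfold ov ovb
  cases β with
  | true => rw [if_pos (by simpa using h)]
  | false =>
    have h1 : (v, true) ∉ s := by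
      intro h2
      have := List.inj_on_of_nodup_map hs h h2 rfl
      simp at this
    rw [if_neg (by simpa using h1), if_pos (by simpa using h)]

theorem ov_not {s : List (ℕ × Bool)} {v : ℕ} {β : Bool} (h : (v, β) ∉ s) (h' : (v, !β) ∉ s)
    (b : ℕ → Bool) : ov s b v = b v := by
  unfold ov ovb
  cases β with
  | true =>
    rw [if_neg (by simpa using h), if_neg (by simpa using h')]
  | false =>
    rw [if_neg (by simpa using h'), if_neg (by simpa using h)]

/-- the terms that are kept -/
def keep (m : ℕ) (s t : List (ℕ × Bool)) : Bool :=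
  t.all fun p => !s.contains (p.1, !p.2) && !t.contains (p.1, !p.2) &&
    !(decide (m ≤ p.1) && p.2)

/-- the new term -/
noncomputable def nt (m : ℕ) (s t : List (ℕ × Bool)) : List (ℕ × Bool) :=
  (t.filter fun p => decide (p.1 < m) && !s.contains p).dedup

theorem keep_iff {m : ℕ} {s t : List (ℕ × Bool)} : keep m s t = true ↔
    ∀ p ∈ t, (p.1, !p.2) ∉ s ∧ (p.1, !p.2) ∉ t ∧ (m ≤ p.1 → p.2 = false) := by
  unfold keep
  rw [List.all_eq_true]
  refine forall₂_congr fun p _ => ?_
  simp only [Bool.and_eq_true, Bool.not_eq_true', and_assoc]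
  simp only [List.contains_eq_mem, decide_eq_false_iff_not, Bool.and_eq_false_iff]
  refine and_congr_right fun _ => and_congr_right fun _ => ?_
  constructor
  · intro h h2
    rcases h with h | h
    · exact absurd h2 h
    · exact h
  · intro h
    by_cases h2 : m ≤ p.1
    · exact Or.inr (h h2)
    · exact Or.inl h2

theorem mem_nt {m : ℕ} {s t : List (ℕ × Bool)} {p : ℕ × Bool} : p ∈ nt m s t ↔
    p ∈ t ∧ p.1 < m ∧ p ∉ s := by
  unfold nt
  simp

theorem sat_iff {m : ℕ} {s : List (ℕ × Bool)} (hs : (s.map Prod.fst).Nodup)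
    (hm : ∀ p ∈ s, p.1 < m) (y : Fin m → Bool) (t : List (ℕ × Bool)) :
    (∀ p ∈ t, ov s (PM.coins y) p.1 = p.2) ↔
      keep m s t = true ∧ ∀ p ∈ nt m s t, PM.coins y p.1 = p.2 := by
  rw [keep_iff]
  constructor
  · intro h
    have hk : ∀ p ∈ t, (p.1, !p.2) ∉ s ∧ (p.1, !p.2) ∉ t ∧ (m ≤ p.1 → p.2 = false) := by
      intro p hp
      have hv := h p hp
      refine ⟨fun h2 => ?_, fun h2 => ?_, fun h2 => ?_⟩
      · have := ov_mem hs h2 (PM.coins y)
        rw [hv] at this
        simp at this
      · have := h _ h2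
        rw [hv] at this
        simp at this
      · rw [← hv]
        have h3 : ∀ β, (p.1, β) ∉ s := fun β h4 => by
          have := hm _ h4
          simp only at this
          omega
        rw [ov_not (h3 true) (h3 _)]
        unfold PM.coins
        rw [dif_neg (by omega)]
    refine ⟨hk, fun p hp => ?_⟩
    obtain ⟨hpt, hpm, hps⟩ := mem_nt.1 hp
    rw [← h p hpt]
    exact (ov_not (β := p.2) hps (hk p hpt).1 _).symm
  · rintro ⟨hk, hn⟩ p hp
    by_cases hps : p ∈ s
    · exact ov_mem hs (by simpa using hps) _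
    · rw [ov_not (β := p.2) hps (hk p hp).1]
      by_cases hpm : p.1 < m
      · exact hn p (mem_nt.2 ⟨hp, hpm, hps⟩)
      · rw [(hk p hp).2.2 (by omega)]
        unfold PM.coins
        rw [dif_neg hpm]

theorem clg_cons {β : Type} (m : ℕ) (s : List (ℕ × Bool)) (e : List (ℕ × Bool) × β)
    (F : List (List (ℕ × Bool) × β)) : clg m s (e :: F) =
      if keep m s e.1 = true then (nt m s e.1, e.2) :: clg m s F else clg m s F := by
  unfold clg
  rw [List.filter_cons]
  by_cases h : keep m s e.1 = true
  · rw [if_pos h, if_pos (by exact h), List.map_cons]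
    congr 2
  · rw [if_neg h, if_neg (by exact h)]

theorem clg_mem {β : Type} {m : ℕ} {s : List (ℕ × Bool)} {F : List (List (ℕ × Bool) × β)}
    {e' : List (ℕ × Bool) × β} (h : e' ∈ clg m s F) :
    ∃ e ∈ F, keep m s e.1 = true ∧ e' = (nt m s e.1, e.2) := by
  induction F with
  | nil => simp [clg] at h
  | cons e F ih =>
    rw [clg_cons] at h
    split_ifs at h with hk
    · rcases List.mem_cons.1 h with h | h
      · exact ⟨e, by simp, hk, h⟩
      · obtain ⟨e2, h1, h2⟩ := ih h
        exact ⟨e2, by simp [h1], h2⟩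
    · obtain ⟨e2, h1, h2⟩ := ih h
      exact ⟨e2, by simp [h1], h2⟩

theorem clg_of {β : Type} {m : ℕ} {s : List (ℕ × Bool)} {F : List (List (ℕ × Bool) × β)}
    {e : List (ℕ × Bool) × β} (h : e ∈ F) (hk : keep m s e.1 = true) :
    (nt m s e.1, e.2) ∈ clg m s F := by
  induction F with
  | nil => simp at h
  | cons e2 F ih =>
    rw [clg_cons]
    rcases List.mem_cons.1 h with h | h
    · subst h
      rw [if_pos hk]
      simp
    · have := ih h
      split_ifs
      · exact List.mem_cons_of_mem _ this
      · exact this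

/-- **CLG.** -/
theorem clgS : ClgStmt := by
  intro β m s F d hs hm
  refine ⟨?_, ?_, fun y => ⟨?_, ?_⟩⟩
  · unfold clg
    rw [List.length_map]
    exact List.length_filter_le _ _
  · intro e' he'
    obtain ⟨e, heF, hk, rfl⟩ := clg_mem he'
    refine ⟨List.nodup_dedup _, fun p hp => ?_, e, heF, ?_, rfl⟩
    · obtain ⟨h1, h2, h3⟩ := mem_nt.1 hp
      refine ⟨h2, fun h4 => ?_⟩
      exact ((keep_iff.1 hk) p h1).2.1 (mem_nt.1 h4).1
    · exact (List.dedup_sublist _).length_le.trans (List.length_filter_le _ _)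
  · induction F with
    | nil => rfl
    | cons e F ih =>
      rw [clg_cons]
      by_cases h : ∀ p ∈ e.1, ov s (PM.coins y) p.1 = p.2
      · obtain ⟨h1, h2⟩ := (sat_iff hs hm y e.1).1 h
        rw [if_pos h1]
        unfold evg
        rw [if_pos h, if_pos h2]
      · have hr : evg d (ov s (PM.coins y)) (e :: F) = evg d (ov s (PM.coins y)) F := by
          rw [evg, if_neg h]
        rw [hr, ← ih]
        split_ifs with hk
        · rw [evg, if_neg]
          intro h2
          exact h ((sat_iff hs hm y e.1).2 ⟨hk, h2⟩)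
        · rfl
  · rintro ⟨e, heF, h⟩
    obtain ⟨h1, h2⟩ := (sat_iff hs hm y e.1).1 h
    exact ⟨_, clg_of heF h1, h2⟩

end Pool.Agent.Helper35.SM
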