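import Pool.Agent.Helper52.SM.Goals

/-!
# Packet NUM of project SM: the two estimates with `ε`
-/

set_option autoImplicit false

namespace Pool.Agent.Helper35.SM

open Pool.Agent.Helper78.DT Filter Topology

theorem two_pow_bd (c X Y : ℕ) (h : X ≤ Y) :
    (2 : ℝ) ^ (c * Nat.log 2 X + c) ≤ (4 * (Y : ℝ) + 4) ^ c := by
  have h1 : 2 ^ (Nat.log 2 X + 1) ≤ 4 * Y + 4 := by
    rw [pow_succ]
    rcases Nat.eq_zero_or_pos X with h0 | h0
    · subst h0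
      simp
    · have := Nat.pow_log_le_self 2 (by omega : X ≠ 0)
      omega
  have h2 : (2 : ℝ) ^ (Nat.log 2 X + 1) ≤ 4 * (Y : ℝ) + 4 := by exact_mod_cast h1
  have h3 : c * Nat.log 2 X + c = (Nat.log 2 X + 1) * c := by ring
  rw [h3, pow_mul]
  exact pow_le_pow_left₀ (by positivity) h2 c

/-- The length of the lists. -/
theorem numE (c q X m T : ℕ) (hq : 9 * c + 6 ≤ q) :
    (1 + (T : ℝ) * 2 ^ (c * Nat.log 2 X + c)) *
      (1 + T / (1 / (4 * ((X : ℝ) + m + T) + 4) ^ (8 * c + 4))) ≤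
      ((4 * (X + m + T) + 4) ^ q : ℕ) := by
  have hp := two_pow_bd c X (X + m + T) (by omega)
  push_cast at hp ⊢
  set B : ℝ := 4 * ((X : ℝ) + m + T) + 4 with hB
  have hX : (0 : ℝ) ≤ X := Nat.cast_nonneg _
  have hm : (0 : ℝ) ≤ m := Nat.cast_nonneg _
  have hT : (0 : ℝ) ≤ T := Nat.cast_nonneg _
  have hB1 : 1 ≤ B := by rw [hB]; linarith
  have hTB : (T : ℝ) + 1 ≤ B := by rw [hB]; linarith
  have h1 : 1 + (T : ℝ) * 2 ^ (c * Nat.log 2 X + c) ≤ B ^ (c + 1) := by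
    calc 1 + (T : ℝ) * 2 ^ (c * Nat.log 2 X + c) ≤ B ^ c + T * B ^ c :=
          add_le_add (one_le_pow₀ hB1) (mul_le_mul_of_nonneg_left hp hT)
      _ = (T + 1) * B ^ c := by ring
      _ ≤ B * B ^ c := mul_le_mul_of_nonneg_right hTB (by positivity)
      _ = B ^ (c + 1) := by ring
  have h2 : 1 + (T : ℝ) / (1 / B ^ (8 * c + 4)) ≤ B ^ (8 * c + 5) := by
    rw [div_div_eq_mul_div, div_one]
    calc 1 + (T : ℝ) * B ^ (8 * c + 4) ≤ B ^ (8 * c + 4) + T * B ^ (8 * c + 4) :=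
          add_le_add (one_le_pow₀ hB1) le_rfl
      _ = (T + 1) * B ^ (8 * c + 4) := by ring
      _ ≤ B * B ^ (8 * c + 4) := mul_le_mul_of_nonneg_right hTB (by positivity)
      _ = B ^ (8 * c + 5) := by ring
  calc _ ≤ B ^ (c + 1) * B ^ (8 * c + 5) := mul_le_mul h1 h2 (by positivity) (by positivity)
    _ = B ^ (9 * c + 6) := by rw [← pow_add]; congr 1; ring
    _ ≤ B ^ q := pow_le_pow_right₀ hB1 hq

theorem ex_L0 (q k : ℕ) : ∃ L0 : ℕ, ∀ L : ℕ, L0 ≤ L → 4 * (2 * (L : ℝ) ^ k) ^ q ≤ 2 ^ L := by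
  have h := tendsto_pow_const_div_const_pow_of_one_lt (k * q) (r := (2 : ℝ)) (by norm_num)
  have h2 : (0 : ℝ) < 1 / (4 * 2 ^ q) := by positivity
  obtain ⟨L0, hL0⟩ := eventually_atTop.1 (h.eventually (eventually_lt_nhds h2))
  refine ⟨L0, fun L hL => ?_⟩
  have h3 := hL0 L hL
  rw [div_lt_div_iff₀ (by positivity) (by positivity)] at h3
  calc 4 * (2 * (L : ℝ) ^ k) ^ q = (L : ℝ) ^ (k * q) * (4 * 2 ^ q) := by
        rw [mul_pow, ← pow_mul]; ring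
    _ ≤ 1 * 2 ^ L := h3.le
    _ = 2 ^ L := one_mul _

/-- The loss by the light labels. -/
theorem numR (c q k : ℕ) (hq : 1 ≤ q) : ∃ L0 : ℕ, ∀ X m T r : ℕ, r ≤ lg X →
    L0 ≤ lg ((4 * (X + m + T) + 4) ^ q) →
    r * (√(1 / (4 * ((X : ℝ) + m + T) + 4) ^ (8 * c + 4)) *
      4 ^ (2 * (c * Nat.log 2 X + c))) ≤
      1 / (2 * (lg ((4 * (X + m + T) + 4) ^ q) : ℝ) ^ k) := by
  obtain ⟨L0, hL0⟩ := ex_L0 q k
  refine ⟨L0, fun X m T r hr hL => ?_⟩
  have h0 := hL0 _ hL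
  have hp := two_pow_bd c X (X + m + T) (by omega)
  have hlog : 2 ^ Nat.log 2 ((4 * (X + m + T) + 4) ^ q) ≤ (4 * (X + m + T) + 4) ^ q :=
    Nat.pow_log_le_self 2 (by positivity)
  have hlogR : (2 : ℝ) ^ Nat.log 2 ((4 * (X + m + T) + 4) ^ q) ≤
      (4 * ((X : ℝ) + m + T) + 4) ^ q := by exact_mod_cast hlog
  have hlg : lg ((4 * (X + m + T) + 4) ^ q) = Nat.log 2 ((4 * (X + m + T) + 4) ^ q) + 2 := rfl
  have hlg0 : (0 : ℝ) < lg ((4 * (X + m + T) + 4) ^ q) := by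
    rw [hlg]
    exact_mod_cast Nat.succ_pos _
  have hrX : r ≤ X + 2 := by
    have : lg X = Nat.log 2 X + 2 := rfl
    have h2 := Nat.log_le_self 2 X
    omega
  push_cast at hp
  set L : ℕ := lg ((4 * (X + m + T) + 4) ^ q) with hLdef
  set B : ℝ := 4 * ((X : ℝ) + m + T) + 4 with hB
  have hX : (0 : ℝ) ≤ X := Nat.cast_nonneg _
  have hm : (0 : ℝ) ≤ m := Nat.cast_nonneg _
  have hT : (0 : ℝ) ≤ T := Nat.cast_nonneg _
  have hB1 : 1 ≤ B := by rw [hB]; linarith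
  have hB0 : 0 < B := by linarith
  have hrB : (r : ℝ) ≤ B := by
    have : (r : ℝ) ≤ X + 2 := by exact_mod_cast hrX
    rw [hB]; linarith
  have hBL : 2 * (L : ℝ) ^ k ≤ B := by
    have h5 : (2 * (L : ℝ) ^ k) ^ q ≤ B ^ q := by
      have h6 : (2 : ℝ) ^ L = 4 * 2 ^ Nat.log 2 ((4 * (X + m + T) + 4) ^ q) := by
        rw [hlg, pow_add]; ring
      rw [h6] at h0
      linarith
    exact le_of_not_gt fun h6 => absurd h5
      (not_le.2 (pow_lt_pow_left₀ h6 hB0.le (by omega)))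
  have hs : √(1 / B ^ (8 * c + 4)) = 1 / B ^ (4 * c + 2) := by
    have : (1 : ℝ) / B ^ (8 * c + 4) = (1 / B ^ (4 * c + 2)) ^ 2 := by
      rw [div_pow, one_pow, ← pow_mul]
      congr 2; ring
    rw [this, Real.sqrt_sq (by positivity)]
  have h4 : (4 : ℝ) ^ (2 * (c * Nat.log 2 X + c)) ≤ B ^ (4 * c) := by
    calc (4 : ℝ) ^ (2 * (c * Nat.log 2 X + c)) = (2 ^ (c * Nat.log 2 X + c)) ^ 4 := by
          have : (4 : ℝ) = 2 ^ 2 := by norm_num
          rw [this, ← pow_mul, ← pow_mul]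
          congr 1; ring
      _ ≤ (B ^ c) ^ 4 := pow_le_pow_left₀ (by positivity) hp 4
      _ = B ^ (4 * c) := by rw [← pow_mul]; congr 1; ring
  rw [hs]
  calc (r : ℝ) * (1 / B ^ (4 * c + 2) * 4 ^ (2 * (c * Nat.log 2 X + c)))
      ≤ B * (1 / B ^ (4 * c + 2) * B ^ (4 * c)) :=
        mul_le_mul hrB (mul_le_mul_of_nonneg_left h4 (by positivity)) (by positivity) hB0.le
    _ = 1 / B := by
        rw [pow_add]
        field_simp
    _ ≤ 1 / (2 * (L : ℝ) ^ k) := one_div_le_one_div_of_le (by positivity) hBL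

end Pool.Agent.Helper35.SM
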